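import Mathlib.Algebra.MvPolynomial.SchwartzZippel
import Mathlib.Algebra.Order.Field.Rat
import Mathlib.Data.Real.Basic
import Mathlib.Tactic

/-!
Members of multi-parameter families with invariant in a small set (helper327): heights of the values
of a quotient of two polynomials, and the count of the parameters by the Schwartz-Zippel lemma.
-/

set_option autoImplicit false

namespace Pool.Agent.Q327.MF

open MvPolynomial Finset

/-- parameters in a product of finite sets where one of several nonzero polynomials of degree at most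
`d` vanishes -/
theorem count_gen {K : Type*} [Field K] [DecidableEq K] {ι : Type*} {r d m : ℕ} (J : Finset ι)
    (Q : ι → MvPolynomial (Fin r) K) (hQ : ∀ j ∈ J, Q j ≠ 0) (hd : ∀ j ∈ J, (Q j).totalDegree ≤ d)
    (S : Fin r → Finset K) (hm : ∀ i, m ≤ (S i).card) (T : Finset (Fin r → K))
    (hT : ∀ z ∈ T, ∀ i, z i ∈ S i) (hz : ∀ z ∈ T, ∃ j ∈ J, eval z (Q j) = 0) :
    m * T.card ≤ J.card * (d * ∏ i, (S i).card) := by
  rcases Nat.eq_zero_or_pos m with h0 | hmpos
  · subst h0
    simp
  have hSpos : ∀ i, 0 < (S i).card := fun i => hmpos.trans_le (hm i)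
  have hprod : (0 : ℚ≥0) < ∏ i, ((S i).card : ℚ≥0) :=
    Finset.prod_pos fun i _ => Nat.cast_pos.2 (hSpos i)
  have hone : ∀ j ∈ J, m * ((Fintype.piFinset S).filter fun z => eval z (Q j) = 0).card ≤
      d * ∏ i, (S i).card := by
    intro j hj
    have h1 := schwartz_zippel_sup_sum (hQ j hj) S
    have h2 : ((Q j).support.sup fun s => ∑ i, (s i / (S i).card : ℚ≥0)) ≤ (d : ℚ≥0) / m := by
      apply Finset.sup_le
      intro s hs
      calc ∑ i, (s i / (S i).card : ℚ≥0) ≤ ∑ i, (s i / m : ℚ≥0) := by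
            apply Finset.sum_le_sum
            intro i _
            apply div_le_div_of_nonneg_left zero_le (Nat.cast_pos.2 hmpos)
            exact_mod_cast hm i
        _ = (∑ i, (s i : ℚ≥0)) / m := by rw [Finset.sum_div]
        _ ≤ (d : ℚ≥0) / m := by
            apply div_le_div_of_nonneg_right _ zero_le
            have h3 : ∑ i, s i ≤ (Q j).totalDegree := by
              have := le_totalDegree hs
              rwa [Finsupp.sum_fintype _ _ (fun _ => rfl)] at this
            exact_mod_cast h3.trans (hd j hj)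
    have h3 := h1.trans h2
    rw [div_le_iff₀ hprod, div_mul_eq_mul_div, le_div_iff₀ (Nat.cast_pos.2 hmpos)] at h3
    have h4 : (((Fintype.piFinset S).filter fun z => eval z (Q j) = 0).card * m : ℚ≥0) ≤
        d * ∏ i, ((S i).card : ℚ≥0) := h3
    have h5 : ((Fintype.piFinset S).filter fun z => eval z (Q j) = 0).card * m ≤
        d * ∏ i, (S i).card := by exact_mod_cast h4
    linarith
  have hsub : T ⊆ J.biUnion fun j => (Fintype.piFinset S).filter fun z => eval z (Q j) = 0 := by
    intro z hzT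
    obtain ⟨j, hj, h1⟩ := hz z hzT
    exact Finset.mem_biUnion.2 ⟨j, hj, Finset.mem_filter.2
      ⟨Fintype.mem_piFinset.2 (hT z hzT), h1⟩⟩
  calc m * T.card ≤ m * ∑ j ∈ J, ((Fintype.piFinset S).filter fun z => eval z (Q j) = 0).card :=
        Nat.mul_le_mul_left _ ((Finset.card_le_card hsub).trans Finset.card_biUnion_le)
    _ = ∑ j ∈ J, m * ((Fintype.piFinset S).filter fun z => eval z (Q j) = 0).card :=
        Finset.mul_sum _ _ _
    _ ≤ ∑ _j ∈ J, d * ∏ i, (S i).card := Finset.sum_le_sum hone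
    _ = J.card * (d * ∏ i, (S i).card) := by rw [Finset.sum_const, smul_eq_mul]

theorem map_deg {r : ℕ} (P : MvPolynomial (Fin r) ℤ) :
    (map (Int.castRingHom ℚ) P).totalDegree ≤ P.totalDegree :=
  Finset.sup_mono (support_map_subset _ _)

/-- the value of an integral polynomial at a rational point of height at most `H`, times a common
denominator -/
theorem value_int {r d : ℕ} (P : MvPolynomial (Fin r) ℤ) (hP : P.totalDegree ≤ d) {H L : ℝ}
    (hH : 1 ≤ H) (hL : (∑ m ∈ P.support, |((P.coeff m : ℤ) : ℝ)|) ≤ L) (z : Fin r → ℚ)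
    (hz : ∀ i, |((z i).num : ℝ)| ≤ H ∧ ((z i).den : ℝ) ≤ H) :
    ∃ a : ℤ, aeval z P * ∏ i, ((z i).den : ℚ) ^ d = a ∧ |(a : ℝ)| ≤ L * H ^ (r * d) := by
  have hle : ∀ m ∈ P.support, ∀ i, m i ≤ d := by
    intro m hm i
    have h1 := le_totalDegree hm
    rw [Finsupp.sum_fintype _ _ (fun _ => rfl)] at h1
    exact (Finset.single_le_sum (f := fun i => m i) (fun _ _ => Nat.zero_le _)
      (Finset.mem_univ i)).trans (h1.trans hP)
  refine ⟨∑ m ∈ P.support, P.coeff m * ∏ i, (z i).num ^ (m i) * ((z i).den : ℤ) ^ (d - m i), ?_, ?_⟩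
  · rw [aeval_def, eval₂_eq', Finset.sum_mul]
    push_cast
    apply Finset.sum_congr rfl
    intro m hm
    rw [mul_assoc, ← Finset.prod_mul_distrib]
    congr 1
    · apply Finset.prod_congr rfl
      intro i _
      have h1 : ((z i).den : ℚ) ^ d = ((z i).den : ℚ) ^ (m i) * ((z i).den : ℚ) ^ (d - m i) := by
        rw [← pow_add, Nat.add_sub_cancel' (hle m hm i)]
      rw [h1, ← mul_assoc, ← mul_pow]
      congr 2
      exact Rat.mul_den_eq_num (z i)
  · push_cast
    calc |∑ m ∈ P.support, ((P.coeff m : ℤ) : ℝ) *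
          ∏ i, ((z i).num : ℝ) ^ (m i) * ((z i).den : ℝ) ^ (d - m i)|
        ≤ ∑ m ∈ P.support, |((P.coeff m : ℤ) : ℝ) *
          ∏ i, ((z i).num : ℝ) ^ (m i) * ((z i).den : ℝ) ^ (d - m i)| :=
          Finset.abs_sum_le_sum_abs _ _
      _ ≤ ∑ m ∈ P.support, |((P.coeff m : ℤ) : ℝ)| * H ^ (r * d) := by
          apply Finset.sum_le_sum
          intro m hm
          rw [abs_mul]
          apply mul_le_mul_of_nonneg_left _ (abs_nonneg _)
          rw [Finset.abs_prod]
          calc ∏ i, |((z i).num : ℝ) ^ (m i) * ((z i).den : ℝ) ^ (d - m i)|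
              ≤ ∏ _i : Fin r, H ^ d := by
                apply Finset.prod_le_prod (fun _ _ => abs_nonneg _)
                intro i _
                rw [abs_mul, abs_pow, abs_pow]
                have h2 : |((z i).den : ℝ)| ≤ H := by
                  rw [abs_of_nonneg (Nat.cast_nonneg _)]
                  exact (hz i).2
                calc |((z i).num : ℝ)| ^ (m i) * |((z i).den : ℝ)| ^ (d - m i)
                    ≤ H ^ (m i) * H ^ (d - m i) :=
                      mul_le_mul (pow_le_pow_left₀ (abs_nonneg _) (hz i).1 _)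
                        (pow_le_pow_left₀ (abs_nonneg _) h2 _) (by positivity) (by positivity)
                  _ = H ^ d := by rw [← pow_add, Nat.add_sub_cancel' (hle m hm i)]
            _ = H ^ (r * d) := by
                rw [Finset.prod_const, Finset.card_univ, Fintype.card_fin, ← pow_mul, mul_comm]
      _ = (∑ m ∈ P.support, |((P.coeff m : ℤ) : ℝ)|) * H ^ (r * d) := by rw [Finset.sum_mul]
      _ ≤ L * H ^ (r * d) := mul_le_mul_of_nonneg_right hL (by positivity)

/-- the height of the value of a quotient of two integral polynomials -/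
theorem value_ht {r d : ℕ} (F G : MvPolynomial (Fin r) ℤ) (hF : F.totalDegree ≤ d)
    (hG : G.totalDegree ≤ d) {H : ℝ} (hH : 1 ≤ H)
    (hF1 : (∑ m ∈ F.support, |((F.coeff m : ℤ) : ℝ)|) ≤ H)
    (hG1 : (∑ m ∈ G.support, |((G.coeff m : ℤ) : ℝ)|) ≤ H) (z : Fin r → ℚ)
    (hz : ∀ i, |((z i).num : ℝ)| ≤ H ∧ ((z i).den : ℝ) ≤ H) (h0 : aeval z G ≠ (0 : ℚ)) :
    |((aeval z F / aeval z G : ℚ).num : ℝ)| ≤ H ^ (r * d + 1) ∧
      ((aeval z F / aeval z G : ℚ).den : ℝ) ≤ H ^ (r * d + 1) := by
  obtain ⟨a, ha, ha1⟩ := value_int F hF hH hF1 z hz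
  obtain ⟨b, hb, hb1⟩ := value_int G hG hH hG1 z hz
  have hD : (∏ i, ((z i).den : ℚ) ^ d) ≠ 0 :=
    Finset.prod_ne_zero_iff.2 fun i _ => pow_ne_zero _ (Nat.cast_ne_zero.2 (z i).den_nz)
  have hb0 : b ≠ 0 := by
    intro h1
    rw [h1, Int.cast_zero] at hb
    exact (mul_ne_zero h0 hD) hb
  have hj : (aeval z F / aeval z G : ℚ) = (a : ℚ) / (b : ℚ) := by
    rw [← ha, ← hb, mul_div_mul_right _ _ hD]
  have hpow : H * H ^ (r * d) = H ^ (r * d + 1) := by rw [pow_succ, mul_comm]
  rw [hpow] at ha1 hb1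
  rw [hj]
  constructor
  · rcases eq_or_ne a 0 with ha0 | ha0
    · rw [ha0]
      simp only [Int.cast_zero, zero_div, Rat.num_zero, abs_zero]
      positivity
    · have h1 : ((a : ℚ) / (b : ℚ)).num ∣ a := by
        rw [← Rat.divInt_eq_div]
        exact Rat.num_dvd a hb0
      have h2 : |((a : ℚ) / (b : ℚ)).num| ≤ |a| := by
        have := Int.le_of_dvd (abs_pos.2 ha0) ((abs_dvd_abs _ _).2 h1)
        exact this
      calc |((((a : ℚ) / (b : ℚ)).num : ℤ) : ℝ)| ≤ |(a : ℝ)| := by exact_mod_cast h2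
        _ ≤ _ := ha1
  · have h1 : ((((a : ℚ) / (b : ℚ)).den : ℕ) : ℤ) ∣ b := by
      rw [← Rat.divInt_eq_div]
      exact Rat.den_dvd a b
    have h2 : ((((a : ℚ) / (b : ℚ)).den : ℕ) : ℤ) ≤ |b| :=
      Int.le_of_dvd (abs_pos.2 hb0) ((dvd_abs _ _).2 h1)
    calc ((((a : ℚ) / (b : ℚ)).den : ℕ) : ℝ) ≤ |(b : ℝ)| := by exact_mod_cast h2
      _ ≤ _ := hb1

/-- at most `#J · d · ∏ |S i| / m` parameters in a product of finite sets of rational numbers of
cardinality at least `m` have their invariant in `J` -/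
theorem count_rat {r d m : ℕ} (F G : MvPolynomial (Fin r) ℤ) (hF : F.totalDegree ≤ d)
    (hG : G.totalDegree ≤ d) (hind : ∀ a b : ℤ, C a * F = C b * G → a = 0 ∧ b = 0)
    (S : Fin r → Finset ℚ) (hm : ∀ i, m ≤ (S i).card) (J : Finset ℚ) (T : Finset (Fin r → ℚ))
    (hT : ∀ z ∈ T, (∀ i, z i ∈ S i) ∧ aeval z G ≠ (0 : ℚ) ∧ (aeval z F / aeval z G : ℚ) ∈ J) :
    m * T.card ≤ J.card * (d * ∏ i, (S i).card) := by
  classical
  refine count_gen J (fun j => map (Int.castRingHom ℚ) (C (j.den : ℤ) * F - C j.num * G)) ?_ ?_ S hm T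
    (fun z hz => (hT z hz).1) ?_
  · intro j _ h1
    have h2 : (C (j.den : ℤ) * F - C j.num * G : MvPolynomial (Fin r) ℤ) = 0 := by
      apply map_injective (Int.castRingHom ℚ) Int.cast_injective
      rw [h1, map_zero]
    have h3 := (hind _ _ (sub_eq_zero.1 h2)).1
    exact j.den_nz (by exact_mod_cast h3)
  · intro j _
    refine (map_deg _).trans ((totalDegree_sub _ _).trans (max_le ?_ ?_))
    · refine (totalDegree_mul _ _).trans ?_
      rw [totalDegree_C, zero_add]
      exact hF
    · refine (totalDegree_mul _ _).trans ?_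
      rw [totalDegree_C, zero_add]
      exact hG
  · intro z hz
    obtain ⟨-, h1, h2⟩ := hT z hz
    refine ⟨_, h2, ?_⟩
    rw [eval_map, ← algebraMap_int_eq, ← aeval_def]
    set j : ℚ := aeval z F / aeval z G with hj
    have h3 : (j.den : ℚ) * j = j.num := by
      rw [mul_comm]
      exact Rat.mul_den_eq_num j
    have h4 : aeval z F = j * aeval z G := by
      rw [hj, div_mul_cancel₀ _ h1]
    rw [map_sub, map_mul, map_mul, aeval_C, aeval_C, h4]
    simp only [algebraMap_int_eq, eq_intCast, Int.cast_natCast]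
    rw [← mul_assoc, h3, sub_self]

end Pool.Agent.Q327.MF
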