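import Mathlib.NumberTheory.Height.NumberField
import Pool.Agent.Q327.MF.Gen

/-!
Members of multi-parameter families over a number field with invariant in a small set (helper327).
-/

set_option autoImplicit false

namespace Pool.Agent.Q327.MF

open MvPolynomial Finset Height

/-- at most `(d + 1) ^ r` monomials of degree at most `d` -/
theorem card_support_le {R : Type*} [CommSemiring R] {r d : ℕ} (P : MvPolynomial (Fin r) R)
    (hP : P.totalDegree ≤ d) : P.support.card ≤ (d + 1) ^ r := by
  classical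
  have hle : ∀ m ∈ P.support, ∀ i, m i ≤ d := by
    intro m hm i
    have h1 := le_totalDegree hm
    rw [Finsupp.sum_fintype _ _ (fun _ => rfl)] at h1
    exact (Finset.single_le_sum (f := fun i => m i) (fun _ _ => Nat.zero_le _)
      (Finset.mem_univ i)).trans (h1.trans hP)
  have h1 : P.support.card ≤ (Fintype.piFinset fun _ : Fin r => Finset.range (d + 1)).card := by
    apply Finset.card_le_card_of_injOn (fun m i => m i)
    · intro m hm
      rw [Finset.mem_coe, Fintype.mem_piFinset]
      intro i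
      exact Finset.mem_range.2 (Nat.lt_succ_of_le (hle m hm i))
    · intro m _ m' _ h
      exact DFunLike.coe_injective h
  rw [Fintype.card_piFinset_const, Finset.card_range] at h1
  simpa using h1

/-- the height of the value of a polynomial -/
theorem height_value {K : Type*} [Field K] [NumberField K] {r d : ℕ} (P : MvPolynomial (Fin r) K)
    (hP : P.totalDegree ≤ d) : ∃ A : ℝ, 1 ≤ A ∧ ∀ H : ℝ, 1 ≤ H → ∀ z : Fin r → K,
      (∀ i, mulHeight₁ (z i) ≤ H) →
        mulHeight₁ (eval z P) ≤ A * H ^ ((d + 1) ^ r * (r * d)) := by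
  classical
  have hle : ∀ m ∈ P.support, ∀ i, m i ≤ d := by
    intro m hm i
    have h1 := le_totalDegree hm
    rw [Finsupp.sum_fintype _ _ (fun _ => rfl)] at h1
    exact (Finset.single_le_sum (f := fun i => m i) (fun _ _ => Nat.zero_le _)
      (Finset.mem_univ i)).trans (h1.trans hP)
  rcases P.support.eq_empty_or_nonempty with he | hne
  · refine ⟨1, le_rfl, fun H hH z _ => ?_⟩
    rw [support_eq_empty] at he
    rw [he, map_zero, mulHeight₁_zero, one_mul]
    exact one_le_pow₀ hH
  set W : ℕ := Height.totalWeight K with hW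
  set A : ℝ := (P.support.card : ℝ) ^ W * ∏ m ∈ P.support, mulHeight₁ (P.coeff m) with hA
  have hcard : (1 : ℝ) ≤ P.support.card := by exact_mod_cast hne.card_pos
  have hA1 : 1 ≤ A := by
    rw [hA]
    apply one_le_mul_of_one_le_of_one_le (one_le_pow₀ hcard)
    calc (1 : ℝ) = ∏ _m ∈ P.support, (1 : ℝ) := by rw [Finset.prod_const_one]
      _ ≤ _ := Finset.prod_le_prod (fun _ _ => zero_le_one) fun m _ => one_le_mulHeight₁ _
  refine ⟨A, hA1, fun H hH z hz => ?_⟩
  have hH0 : (0 : ℝ) ≤ H := zero_le_one.trans hH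
  rw [eval_eq']
  refine (mulHeight₁_sum_le hne _).trans ?_
  have h1 : ∀ m ∈ P.support, mulHeight₁ (P.coeff m * ∏ i, z i ^ m i) ≤
      mulHeight₁ (P.coeff m) * H ^ (r * d) := by
    intro m hm
    refine (mulHeight₁_mul_le _ _).trans ?_
    apply mul_le_mul_of_nonneg_left _ (mulHeight₁_nonneg _)
    refine (mulHeight₁_prod_le _ _).trans ?_
    calc ∏ i, mulHeight₁ (z i ^ m i) ≤ ∏ _i : Fin r, H ^ d := by
          apply Finset.prod_le_prod (fun _ _ => mulHeight₁_nonneg _)
          intro i _
          rw [mulHeight₁_pow]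
          exact (pow_le_pow_left₀ (mulHeight₁_nonneg _) (hz i) _).trans
            (pow_le_pow_right₀ hH (hle m hm i))
      _ = H ^ (r * d) := by
          rw [Finset.prod_const, Finset.card_univ, Fintype.card_fin, ← pow_mul, mul_comm]
  calc (P.support.card : ℝ) ^ W * ∏ m ∈ P.support, mulHeight₁ (P.coeff m * ∏ i, z i ^ m i)
      ≤ (P.support.card : ℝ) ^ W * ∏ m ∈ P.support, (mulHeight₁ (P.coeff m) * H ^ (r * d)) := by
        apply mul_le_mul_of_nonneg_left _ (by positivity)
        exact Finset.prod_le_prod (fun _ _ => mulHeight₁_nonneg _) h1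
    _ = A * H ^ ((r * d) * P.support.card) := by
        rw [Finset.prod_mul_distrib, Finset.prod_const, ← pow_mul, ← mul_assoc]
    _ ≤ A * H ^ ((d + 1) ^ r * (r * d)) := by
        apply mul_le_mul_of_nonneg_left _ (by linarith)
        apply pow_le_pow_right₀ hH
        rw [mul_comm]
        exact Nat.mul_le_mul_right _ (card_support_le P hP)

/-- the height of the value of a quotient of two polynomials -/
theorem height_quot {K : Type*} [Field K] [NumberField K] {r d : ℕ} (F G : MvPolynomial (Fin r) K)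
    (hF : F.totalDegree ≤ d) (hG : G.totalDegree ≤ d) : ∃ A : ℝ, 1 ≤ A ∧ ∀ H : ℝ, 1 ≤ H →
      ∀ z : Fin r → K, (∀ i, mulHeight₁ (z i) ≤ H) →
        mulHeight₁ (eval z F / eval z G) ≤ A * H ^ (2 * ((d + 1) ^ r * (r * d))) := by
  obtain ⟨A, hA, h⟩ := height_value F hF
  obtain ⟨B, hB, h'⟩ := height_value G hG
  refine ⟨A * B, one_le_mul_of_one_le_of_one_le hA hB, fun H hH z hz => ?_⟩
  rw [div_eq_mul_inv]
  refine (mulHeight₁_mul_le _ _).trans ?_
  rw [mulHeight₁_inv]
  calc mulHeight₁ (eval z F) * mulHeight₁ (eval z G)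
      ≤ (A * H ^ ((d + 1) ^ r * (r * d))) * (B * H ^ ((d + 1) ^ r * (r * d))) :=
        mul_le_mul (h H hH z hz) (h' H hH z hz) (mulHeight₁_nonneg _) (by positivity)
    _ = A * B * H ^ (2 * ((d + 1) ^ r * (r * d))) := by
        rw [two_mul, pow_add]
        ring

/-- the parameters with invariant in `J` -/
theorem count_field {K : Type*} [Field K] [DecidableEq K] {r d m : ℕ} (F G : MvPolynomial (Fin r) K)
    (hF : F.totalDegree ≤ d) (hG : G.totalDegree ≤ d) (hind : ∀ j : K, F ≠ C j * G)
    (S : Fin r → Finset K) (hm : ∀ i, m ≤ (S i).card) (J : Finset K) (T : Finset (Fin r → K))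
    (hT : ∀ z ∈ T, (∀ i, z i ∈ S i) ∧ eval z G ≠ 0 ∧ eval z F / eval z G ∈ J) :
    m * T.card ≤ J.card * (d * ∏ i, (S i).card) := by
  classical
  refine count_gen J (fun j => F - C j * G) ?_ ?_ S hm T (fun z hz => (hT z hz).1) ?_
  · intro j _ h1
    exact hind j (sub_eq_zero.1 h1)
  · intro j _
    refine (totalDegree_sub _ _).trans (max_le hF ?_)
    refine (totalDegree_mul _ _).trans ?_
    rw [totalDegree_C, zero_add]
    exact hG
  · intro z hz
    obtain ⟨-, h1, h2⟩ := hT z hz
    refine ⟨_, h2, ?_⟩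
    rw [map_sub, map_mul, eval_C, div_mul_cancel₀ _ h1, sub_self]

end Pool.Agent.Q327.MF
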